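import Pool.Agent.Helper137_UPlus.Center

namespace Pool.Agent.Results.MP_cafee0_al.TrivialCenter

open Pool.Helper137.UPlus

/-- The number `[3]_q = q² + 1 + q⁻²`. -/
def qThree {K : Type*} [Field K] (q : K) : K := q ^ 2 + 1 + (q ^ 2)⁻¹

/-- The positive part `U⁺` of the quantum affine algebra of type `A₁⁽¹⁾`: the unital associative
`K`-algebra with two generators `A`, `A*` and the two cubic Serre relations
`x³y - [3] x²yx + [3] xyx² - yx³ = 0` for `(x, y) = (A, A*)` and `(x, y) = (A*, A)`
(the quotient of the free algebra on two letters by the relations `SerreRel`). -/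
abbrev UPlus (K : Type*) [Field K] (q : K) := RingQuot (SerreRel K (qThree q))

/-- If `q` is nonzero and not a root of unity, then the centre of `U⁺` consists of the scalars
only (so it is generated by the empty set), over an arbitrary field, and `K → U⁺` is injective. -/
theorem result (K : Type*) [Field K] (q : K) (hq0 : q ≠ 0) (hq : ∀ n : ℕ, 0 < n → q ^ n ≠ 1) :
    Subalgebra.center K (UPlus K q) = ⊥ ∧
      Subalgebra.center K (UPlus K q) = Algebra.adjoin K (∅ : Set (UPlus K q)) ∧
      Function.Injective (algebraMap K (UPlus K q)) := by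
  have hne : NeZero (q ^ 2) := ⟨pow_ne_zero 2 hq0⟩
  have hroot : ∀ n : ℕ, 0 < n → (q ^ 2) ^ n ≠ 1 := by
    intro n hn
    rw [← pow_mul]
    exact hq _ (by omega)
  have key : Subalgebra.center K (U (q ^ 2)) = ⊥ := by
    rw [eq_bot_iff]
    intro z hz
    rw [Subalgebra.mem_center_iff] at hz
    obtain ⟨c, hc⟩ := central_scalar hroot (hz (a (q ^ 2))) (hz (b (q ^ 2)))
    rw [hc, ← Algebra.algebraMap_eq_smul_one]
    exact Subalgebra.algebraMap_mem _ c
  have hinj : Function.Injective (algebraMap K (U (q ^ 2))) := (algebraMap K (U (q ^ 2))).injective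
  refine ⟨key, ?_, hinj⟩
  rw [Algebra.adjoin_empty]
  exact key

end Pool.Agent.Results.MP_cafee0_al.TrivialCenter
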